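import Mathlib

set_option autoImplicit false

/-!
Hoffman-Rodger conjecture, part (VI): conversion to the frozen statement, lower bounds,
`Δ + 2` from the odd order case, final assembly.
-/

namespace HRfin

open Finset

/-- exact existential of the frozen statement with `Fin k` -/
def TotCol (p : ℕ) (a : Fin p → ℕ) (k : ℕ) : Prop :=
  ∃ cv : (Σ i : Fin p, Fin (a i)) → Fin k,
    ∃ ce : (SimpleGraph.completeMultipartiteGraph (fun i : Fin p => Fin (a i))).edgeSet → Fin k,
      (∀ u v : (Σ i : Fin p, Fin (a i)),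
        (SimpleGraph.completeMultipartiteGraph (fun i : Fin p => Fin (a i))).Adj u v →
          cv u ≠ cv v) ∧
      (∀ e f : (SimpleGraph.completeMultipartiteGraph (fun i : Fin p => Fin (a i))).edgeSet,
        e ≠ f → ∀ v : (Σ i : Fin p, Fin (a i)), v ∈ e.1 → v ∈ f.1 → ce e ≠ ce f) ∧
      (∀ e : (SimpleGraph.completeMultipartiteGraph (fun i : Fin p => Fin (a i))).edgeSet,
        ∀ v : (Σ i : Fin p, Fin (a i)), v ∈ e.1 → cv v ≠ ce e)

/-- total colouring with colours `< k` of the complete multipartite graph on `V` with part map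
`part`, in the language of symmetric functions -/
def TC {V ι : Type} (part : V → ι) (k : ℕ) : Prop :=
  ∃ cv : V → ℕ, ∃ ce : V → V → ℕ,
    (∀ u, cv u < k) ∧ (∀ u v, part u ≠ part v → ce u v < k) ∧ (∀ u v, ce u v = ce v u) ∧
    (∀ u v, part u ≠ part v → cv u ≠ cv v) ∧
    (∀ u v w, part u ≠ part v → part u ≠ part w → v ≠ w → ce u v ≠ ce u w) ∧
    (∀ u v, part u ≠ part v → cv u ≠ ce u v)

theorem TC_mono {V ι : Type} (part : V → ι) {k l : ℕ} (hkl : k ≤ l) (h : TC part k) :
    TC part l := by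
  obtain ⟨cv, ce, h1, h2, h3, h4, h5, h6⟩ := h
  exact ⟨cv, ce, fun u => lt_of_lt_of_le (h1 u) hkl,
    fun u v huv => lt_of_lt_of_le (h2 u v huv) hkl, h3, h4, h5, h6⟩

/-- pulling back a total colouring along an injective homomorphism -/
theorem TC_pull {V ι V' ι' : Type} (part : V → ι) (part' : V' → ι') (f : V → V')
    (hf : Function.Injective f) (hp : ∀ u v, part u ≠ part v → part' (f u) ≠ part' (f v))
    {k : ℕ} (h : TC part' k) : TC part k := by
  obtain ⟨cv, ce, h1, h2, h3, h4, h5, h6⟩ := h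
  refine ⟨fun u => cv (f u), fun u v => ce (f u) (f v), fun u => h1 _,
    fun u v huv => h2 _ _ (hp u v huv), fun u v => h3 _ _, fun u v huv => h4 _ _ (hp u v huv),
    fun u v w huv huw hvw => h5 _ _ _ (hp u v huv) (hp u w huw) (fun h => hvw (hf h)),
    fun u v huv => h6 _ _ (hp u v huv)⟩

theorem TC_of_TotCol {p : ℕ} {a : Fin p → ℕ} {k : ℕ} (h : TotCol p a k) :
    TC (fun u : (Σ i : Fin p, Fin (a i)) => u.1) k := by
  classical
  obtain ⟨cv, ce, h1, h2, h3⟩ := h
  have hadj : ∀ u v : (Σ i : Fin p, Fin (a i)), u.1 ≠ v.1 →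
      (SimpleGraph.completeMultipartiteGraph (fun i : Fin p => Fin (a i))).Adj u v := by
    intro u v huv; exact huv
  refine ⟨fun u => (cv u : ℕ), fun u v => if h : u.1 ≠ v.1 then
    ((ce ⟨s(u, v), hadj u v h⟩ : Fin k) : ℕ) else 0, fun u => (cv u).2, ?_, ?_, ?_, ?_, ?_⟩
  · intro u v huv
    simp only [dif_pos (show u.1 ≠ v.1 from huv)]
    exact (ce _).2
  · intro u v
    by_cases h : u.1 ≠ v.1
    · have h' : v.1 ≠ u.1 := fun e => h e.symm
      simp only [dif_pos h, dif_pos h']
      have : (⟨s(u, v), hadj u v h⟩ :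
          (SimpleGraph.completeMultipartiteGraph (fun i : Fin p => Fin (a i))).edgeSet) =
          ⟨s(v, u), hadj v u h'⟩ := by
        apply Subtype.ext; exact Sym2.eq_swap
      rw [this]
    · have h' : ¬ v.1 ≠ u.1 := fun e => h (fun e' => e e'.symm)
      simp only [dif_neg h, dif_neg h']
  · intro u v huv hc
    exact h1 u v (hadj u v huv) (Fin.ext hc)
  · intro u v w huv huw hvw hc
    simp only [dif_pos (show u.1 ≠ v.1 from huv), dif_pos (show u.1 ≠ w.1 from huw)] at hc
    refine h2 ⟨s(u, v), hadj u v huv⟩ ⟨s(u, w), hadj u w huw⟩ ?_ u (Sym2.mem_mk_left u v)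
      (Sym2.mem_mk_left u w) (Fin.ext hc)
    intro heq
    have h4 : s(u, v) = s(u, w) := congrArg Subtype.val heq
    rw [Sym2.congr_right] at h4
    exact hvw h4
  · intro u v huv hc
    simp only [dif_pos (show u.1 ≠ v.1 from huv)] at hc
    exact h3 ⟨s(u, v), hadj u v huv⟩ u (Sym2.mem_mk_left u v) (Fin.ext hc)

theorem TotCol_of_TC' {p : ℕ} {a : Fin p → ℕ} {k : ℕ}
    (h : TC (fun u : (Σ i : Fin p, Fin (a i)) => u.1) k) : TotCol p a k := by
  classical
  obtain ⟨cv, ce, h1, h2, h3, h4, h5, h6⟩ := h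
  have hlift : ∀ e : (SimpleGraph.completeMultipartiteGraph (fun i : Fin p => Fin (a i))).edgeSet,
      Sym2.lift ⟨ce, h3⟩ e.1 < k := by
    rintro ⟨e, he⟩
    induction e using Sym2.ind with
    | _ u v => exact h2 u v he
  refine ⟨fun u => ⟨cv u, h1 u⟩, fun e => ⟨Sym2.lift ⟨ce, h3⟩ e.1, hlift e⟩, ?_, ?_, ?_⟩
  · intro u v huv hc
    exact h4 u v huv (congrArg Fin.val hc)
  · rintro ⟨e, he⟩ ⟨f, hf⟩ hef v hve hvf hc
    obtain ⟨x, rfl⟩ := Sym2.mem_iff_exists.mp hve
    obtain ⟨y, rfl⟩ := Sym2.mem_iff_exists.mp hvf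
    have hc' : ce v x = ce v y := congrArg Fin.val hc
    refine h5 v x y he hf ?_ hc'
    rintro rfl
    exact hef rfl
  · rintro ⟨e, he⟩ v hve hc
    obtain ⟨x, rfl⟩ := Sym2.mem_iff_exists.mp hve
    have hc' : cv v = ce v x := congrArg Fin.val hc
    exact h6 v x he hc'

theorem TotCol_iff_TC {p : ℕ} {a : Fin p → ℕ} {k : ℕ} :
    TotCol p a k ↔ TC (fun u : (Σ i : Fin p, Fin (a i)) => u.1) k :=
  ⟨TC_of_TotCol, TotCol_of_TC'⟩

/-- conversion from any finite vertex type with any indexing of the parts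
(`≤` is enough for the fibres). -/
theorem TotCol_of_TC_le {V ι : Type} [Fintype V] [DecidableEq ι] (part : V → ι) {p : ℕ}
    (a : Fin p → ℕ) (e : Fin p → ι) (he : Function.Injective e)
    (h : ∀ i, a i ≤ Fintype.card {v : V // part v = e i}) {k : ℕ} (hT : TC part k) :
    TotCol p a k := by
  classical
  apply TotCol_of_TC'
  have hex : ∀ i, ∃ f : Fin (a i) → {v : V // part v = e i}, Function.Injective f := by
    intro i
    have h2 : Fintype.card (Fin (a i)) ≤ Fintype.card {v : V // part v = e i} := by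
      simpa using h i
    obtain ⟨f⟩ := Function.Embedding.nonempty_of_card_le h2
    exact ⟨f, f.injective⟩
  choose f hf using hex
  refine TC_pull (fun u : (Σ i : Fin p, Fin (a i)) => u.1) part
    (fun u => ((f u.1 u.2 : {v : V // part v = e u.1}) : V)) ?_ ?_ hT
  · rintro ⟨i, x⟩ ⟨j, y⟩ hxy
    have h1 : e i = e j := by
      have h3 := (f i x).2
      have h4 := (f j y).2
      dsimp only at hxy
      rw [← h3, ← h4, hxy]
    have h2 := he h1
    subst h2
    have h5 : f i x = f i y := Subtype.ext hxy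
    rw [hf i h5]
  · rintro ⟨i, x⟩ ⟨j, y⟩ hij hpart
    apply hij
    dsimp only at hpart ⊢
    rw [(f i x).2, (f j y).2] at hpart
    exact he hpart

theorem TotCol_of_TC {V ι : Type} [Fintype V] [DecidableEq ι] (part : V → ι) {p : ℕ}
    (a : Fin p → ℕ) (e : Fin p ≃ ι)
    (h : ∀ i, Fintype.card {v : V // part v = e i} = a i) {k : ℕ} (hT : TC part k) :
    TotCol p a k :=
  TotCol_of_TC_le part a e e.injective (fun i => le_of_eq (h i).symm) hT

theorem TotCol_mono_k {p : ℕ} {a : Fin p → ℕ} {k l : ℕ} (hkl : k ≤ l) (h : TotCol p a k) :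
    TotCol p a l :=
  TotCol_of_TC' (TC_mono _ hkl (TC_of_TotCol h))

theorem TotCol_mono_a {p : ℕ} {a b : Fin p → ℕ} (hab : ∀ i, a i ≤ b i) {k : ℕ}
    (h : TotCol p b k) : TotCol p a k := by
  apply TotCol_of_TC'
  refine TC_pull (fun u : (Σ i : Fin p, Fin (a i)) => u.1)
    (fun u : (Σ i : Fin p, Fin (b i)) => u.1)
    (fun u => ⟨u.1, Fin.castLE (hab u.1) u.2⟩) ?_ ?_ (TC_of_TotCol h)
  · rintro ⟨i, x⟩ ⟨j, y⟩ hxy
    have h1 : i = j := congrArg Sigma.fst hxy
    subst h1
    simp only [Sigma.mk.injEq, heq_eq_eq, true_and] at hxy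
    have := congrArg Fin.val hxy
    simp only [Fin.val_castLE] at this
    rw [Fin.ext this]
  · intro u v huv
    exact huv

/-- permuting the parts -/
theorem TotCol_perm {p q : ℕ} {a : Fin p → ℕ} {b : Fin q → ℕ} (e : Fin p ≃ Fin q)
    (hab : ∀ i, a i ≤ b (e i)) {k : ℕ} (h : TotCol q b k) : TotCol p a k := by
  apply TotCol_of_TC'
  refine TC_pull (fun u : (Σ i : Fin p, Fin (a i)) => u.1)
    (fun u : (Σ i : Fin q, Fin (b i)) => u.1)
    (fun u => ⟨e u.1, Fin.castLE (hab u.1) u.2⟩) ?_ ?_ (TC_of_TotCol h)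
  · rintro ⟨i, x⟩ ⟨j, y⟩ hxy
    have h1 : e i = e j := congrArg Sigma.fst hxy
    have h2 := e.injective h1
    subst h2
    simp only [Sigma.mk.injEq, heq_eq_eq, true_and] at hxy
    have := congrArg Fin.val hxy
    simp only [Fin.val_castLE] at this
    rw [Fin.ext this]
  · intro u v huv hc
    exact huv (e.injective hc)

/-! ### Lower bounds -/

section Lower

variable {V ι : Type} [Fintype V] [DecidableEq V] [DecidableEq ι]

/-- number of ordered pairs of colour `c` is even -/
theorem even_pairs (part : V → ι) (ce : V → V → ℕ) (hs : ∀ u v, ce u v = ce v u) (c : ℕ) :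
    Even ((univ.filter (fun x : V × V => part x.1 ≠ part x.2 ∧ ce x.1 x.2 = c)).card) := by
  have h : (∑ _x ∈ (univ.filter (fun x : V × V => part x.1 ≠ part x.2 ∧ ce x.1 x.2 = c)),
      (1 : ZMod 2)) = 0 := by
    refine Finset.sum_involution (fun x _ => (x.2, x.1)) ?_ ?_ ?_ ?_
    · intro x _; decide
    · intro x hx _ heq
      rw [mem_filter] at hx
      apply hx.2.1
      have := congrArg Prod.fst heq
      simp only at this
      rw [this]
    · intro x hx
      rw [mem_filter] at hx ⊢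
      refine ⟨mem_univ _, fun h => hx.2.1 h.symm, ?_⟩
      simp only
      rw [hs]; exact hx.2.2
    · intro x hx; rfl
  rw [Finset.sum_const, nsmul_eq_mul, mul_one] at h
  exact (ZMod.natCast_eq_zero_iff_even).mp h

/-- the local count: at every vertex, colour `c` is used at most once -/
theorem local_le (part : V → ι) (cv : V → ℕ) (ce : V → V → ℕ)
    (h5 : ∀ u v w, part u ≠ part v → part u ≠ part w → v ≠ w → ce u v ≠ ce u w)
    (h6 : ∀ u v, part u ≠ part v → cv u ≠ ce u v) (c : ℕ) (v : V) :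
    (if cv v = c then 1 else 0) +
      ((univ.filter (fun u : V => part v ≠ part u ∧ ce v u = c)).card) ≤ 1 := by
  have hcard : ((univ.filter (fun u : V => part v ≠ part u ∧ ce v u = c)).card) ≤ 1 := by
    rw [Finset.card_le_one]
    intro x hx y hy
    rw [mem_filter] at hx hy
    by_contra hxy
    exact h5 v x y hx.2.1 hy.2.1 hxy (hx.2.2.trans hy.2.2.symm)
  split_ifs with h
  · have : (univ.filter (fun u : V => part v ≠ part u ∧ ce v u = c)) = ∅ := by
      rw [Finset.filter_eq_empty_iff]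
      intro u _ hu
      exact h6 v u hu.1 (h.trans hu.2.symm)
    rw [this]; simp
  · omega

/-- `n = |S_c| + N_c + slack_c` -/
theorem colour_le (part : V → ι) (cv : V → ℕ) (ce : V → V → ℕ)
    (h5 : ∀ u v w, part u ≠ part v → part u ≠ part w → v ≠ w → ce u v ≠ ce u w)
    (h6 : ∀ u v, part u ≠ part v → cv u ≠ ce u v) (c : ℕ) :
    ((univ.filter (fun v : V => cv v = c)).card) +
      ((univ.filter (fun x : V × V => part x.1 ≠ part x.2 ∧ ce x.1 x.2 = c)).card) ≤
      Fintype.card V := by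
  have h1 : ((univ.filter (fun x : V × V => part x.1 ≠ part x.2 ∧ ce x.1 x.2 = c)).card) =
      ∑ v : V, ((univ.filter (fun u : V => part v ≠ part u ∧ ce v u = c)).card) := by
    simp only [Finset.card_filter]
    rw [← Finset.univ_product_univ, Finset.sum_product]
  have h2 : ((univ.filter (fun v : V => cv v = c)).card) =
      ∑ v : V, (if cv v = c then 1 else 0) := Finset.card_filter _ _
  rw [h1, h2, ← Finset.sum_add_distrib]
  calc _ ≤ ∑ _v : V, 1 := Finset.sum_le_sum (fun v _ => local_le part cv ce h5 h6 c v)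
    _ = Fintype.card V := by simp

/-- total number of vertices -/
theorem sum_vertices (cv : V → ℕ) (k : ℕ) (h1 : ∀ u, cv u < k) :
    ∑ c ∈ range k, ((univ.filter (fun v : V => cv v = c)).card) = Fintype.card V := by
  have := Finset.card_eq_sum_card_fiberwise (f := cv) (s := (univ : Finset V)) (t := range k)
    (fun x _ => by simpa using h1 x)
  rw [← Finset.card_univ, this]

theorem sum_pairs (part : V → ι) (ce : V → V → ℕ) (k : ℕ)
    (h2 : ∀ u v, part u ≠ part v → ce u v < k) :
    ∑ c ∈ range k, ((univ.filter (fun x : V × V => part x.1 ≠ part x.2 ∧ ce x.1 x.2 = c)).card) =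
      ((univ.filter (fun x : V × V => part x.1 ≠ part x.2)).card) := by
  have := Finset.card_eq_sum_card_fiberwise (f := fun x : V × V => ce x.1 x.2)
    (s := (univ.filter (fun x : V × V => part x.1 ≠ part x.2))) (t := range k)
    (fun x hx => by
      have hx' : part x.1 ≠ part x.2 := by simpa using hx
      simpa using h2 _ _ hx')
  rw [this]
  refine Finset.sum_congr rfl (fun c _ => ?_)
  rw [Finset.filter_filter]

end Lower

/-- number of ordered adjacent pairs in the sigma type -/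
theorem card_pairs {p : ℕ} (a : Fin p → ℕ) :
    ((univ.filter (fun x : (Σ i : Fin p, Fin (a i)) × (Σ i : Fin p, Fin (a i)) =>
      x.1.1 ≠ x.2.1)).card) + ∑ i, a i * a i = (∑ i, a i) * (∑ i, a i) := by
  classical
  have h1 : ((univ.filter (fun x : (Σ i : Fin p, Fin (a i)) × (Σ i : Fin p, Fin (a i)) =>
      x.1.1 = x.2.1)).card) = ∑ i, a i * a i := by
    simp only [Finset.card_filter]
    rw [← Finset.univ_product_univ, Finset.sum_product, Fintype.sum_sigma]
    refine Finset.sum_congr rfl (fun i _ => ?_)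
    have h3 : ∀ x : Fin (a i), (∑ y : (Σ i : Fin p, Fin (a i)),
        if (⟨i, x⟩ : (Σ i : Fin p, Fin (a i))).1 = y.1 then 1 else 0) = a i := by
      intro x
      rw [Fintype.sum_sigma]
      change (∑ x_1 : Fin p, ∑ _x_2 : Fin (a x_1), if i = x_1 then 1 else 0) = a i
      simp only [Finset.sum_const, Finset.card_univ, Fintype.card_fin, smul_eq_mul, mul_ite,
        mul_one, mul_zero, Finset.sum_ite_eq, Finset.mem_univ, if_true]
    simp only [h3, Finset.sum_const, Finset.card_univ, Fintype.card_fin, smul_eq_mul]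
  have h2 := Finset.card_filter_add_card_filter_not
    (s := (univ : Finset ((Σ i : Fin p, Fin (a i)) × (Σ i : Fin p, Fin (a i)))))
    (fun x => x.1.1 = x.2.1)
  rw [Finset.card_univ, Fintype.card_prod, Fintype.card_sigma] at h2
  simp only [Fintype.card_fin] at h2
  rw [← h2, h1]
  simp only [ne_eq]
  omega

/-- the deficiency identity -/
theorem def_identity {p : ℕ} (a : Fin p → ℕ) (m : ℕ) (hm : ∀ i, m ≤ a i) :
    (∑ i, a i * (a i - m)) + m * (∑ i, a i) = ∑ i, a i * a i := by
  rw [Finset.mul_sum, ← Finset.sum_add_distrib]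
  refine Finset.sum_congr rfl (fun i _ => ?_)
  obtain ⟨d, hd⟩ := Nat.exists_eq_add_of_le (hm i)
  rw [hd, Nat.add_sub_cancel_left]
  ring

/-- total slack of a total colouring with `n - m + 1` colours is the deficiency -/
theorem slack_sum {p : ℕ} (a : Fin p → ℕ) (m : ℕ) (hex : ∃ i, a i = m) (hm : ∀ i, m ≤ a i)
    (cv : (Σ i : Fin p, Fin (a i)) → ℕ)
    (ce : (Σ i : Fin p, Fin (a i)) → (Σ i : Fin p, Fin (a i)) → ℕ)
    (h1 : ∀ u, cv u < (∑ i, a i) - m + 1)
    (h2 : ∀ u v, u.1 ≠ v.1 → ce u v < (∑ i, a i) - m + 1)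
    (h5 : ∀ u v w, u.1 ≠ v.1 → u.1 ≠ w.1 → v ≠ w → ce u v ≠ ce u w)
    (h6 : ∀ u v, u.1 ≠ v.1 → cv u ≠ ce u v) :
    ∑ c ∈ range ((∑ i, a i) - m + 1), ((∑ i, a i) -
      (((univ.filter (fun v : (Σ i : Fin p, Fin (a i)) => cv v = c)).card) +
        ((univ.filter (fun x : (Σ i : Fin p, Fin (a i)) × (Σ i : Fin p, Fin (a i)) =>
          x.1.1 ≠ x.2.1 ∧ ce x.1 x.2 = c)).card))) = ∑ i, a i * (a i - m) := by
  classical
  set n := ∑ i, a i with hn
  have hcard : Fintype.card (Σ i : Fin p, Fin (a i)) = n := by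
    rw [Fintype.card_sigma]; simp [hn]
  have hle : ∀ c, ((univ.filter (fun v : (Σ i : Fin p, Fin (a i)) => cv v = c)).card) +
        ((univ.filter (fun x : (Σ i : Fin p, Fin (a i)) × (Σ i : Fin p, Fin (a i)) =>
          x.1.1 ≠ x.2.1 ∧ ce x.1 x.2 = c)).card) ≤ n := by
    intro c
    have := colour_le (fun u : (Σ i : Fin p, Fin (a i)) => u.1) cv ce h5 h6 c
    rw [hcard] at this
    exact this
  have hmn : m ≤ n := by
    obtain ⟨i, hi⟩ := hex
    rw [← hi, hn]
    exact Finset.single_le_sum (fun _ _ => Nat.zero_le _) (Finset.mem_univ i)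
  have hadd : ∑ c ∈ range (n - m + 1), (n -
      (((univ.filter (fun v : (Σ i : Fin p, Fin (a i)) => cv v = c)).card) +
        ((univ.filter (fun x : (Σ i : Fin p, Fin (a i)) × (Σ i : Fin p, Fin (a i)) =>
          x.1.1 ≠ x.2.1 ∧ ce x.1 x.2 = c)).card))) +
      ∑ c ∈ range (n - m + 1), (((univ.filter (fun v : (Σ i : Fin p, Fin (a i)) => cv v = c)).card) +
        ((univ.filter (fun x : (Σ i : Fin p, Fin (a i)) × (Σ i : Fin p, Fin (a i)) =>
          x.1.1 ≠ x.2.1 ∧ ce x.1 x.2 = c)).card)) = (n - m + 1) * n := by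
    rw [← Finset.sum_add_distrib]
    rw [Finset.sum_congr rfl (g := fun _ => n)]
    · simp
    · intro c _
      exact Nat.sub_add_cancel (hle c)
  rw [Finset.sum_add_distrib] at hadd
  have hv := sum_vertices cv (n - m + 1) h1
  have hp := sum_pairs (fun u : (Σ i : Fin p, Fin (a i)) => u.1) ce (n - m + 1) h2
  rw [hv, hp, hcard] at hadd
  have hc := card_pairs a
  have hd := def_identity a m hm
  rw [← hn] at hc hd
  obtain ⟨d, hd'⟩ := Nat.exists_eq_add_of_le hmn
  have h7 : n - m + 1 = d + 1 := by omega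
  rw [h7] at hadd ⊢
  have h8 : (d + 1) * n + m * n = n * n + n := by
    have : n * n = (m + d) * n := by rw [← hd']
    rw [this]; ring
  nlinarith

/-- lower bound, even order and small deficiency -/
theorem lower_odd {p : ℕ} (a : Fin p → ℕ) (m : ℕ) (hex : ∃ i, a i = m) (hm : ∀ i, m ≤ a i)
    (heven : Even (∑ i, a i))
    (hD : (∑ i, (a i * (a i - m))) < (Finset.univ.filter (fun i => Odd (a i))).card) :
    ¬ TotCol p a ((∑ i, a i) - m + 1) := by
  classical
  intro hT
  obtain ⟨cv, ce, h1, h2, h3, h4, h5, h6⟩ := TC_of_TotCol hT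
  have hs := slack_sum a m hex hm cv ce h1 h2 h5 h6
  -- for every odd part a colour with an odd number of vertices in it
  have hcol : ∀ i, Odd (a i) → ∃ c ∈ range ((∑ i, a i) - m + 1),
      Odd ((univ.filter (fun v : (Σ i : Fin p, Fin (a i)) => v.1 = i ∧ cv v = c)).card) := by
    intro i hi
    by_contra hno
    push Not at hno
    have h7 := Finset.card_eq_sum_card_fiberwise (f := cv)
      (s := (univ.filter (fun v : (Σ i : Fin p, Fin (a i)) => v.1 = i)))
      (t := range ((∑ i, a i) - m + 1)) (fun x _ => by simpa using h1 x)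
    have h8 : (univ.filter (fun v : (Σ i : Fin p, Fin (a i)) => v.1 = i)).card = a i := by
      simp only [Finset.card_filter]
      rw [Fintype.sum_sigma]
      change (∑ x_1 : Fin p, ∑ _x_2 : Fin (a x_1), if x_1 = i then 1 else 0) = a i
      simp only [Finset.sum_const, Finset.card_univ, Fintype.card_fin, smul_eq_mul, mul_ite,
        mul_one, mul_zero, Finset.sum_ite_eq', Finset.mem_univ, if_true]
    rw [h8] at h7
    have h9 : Even (a i) := by
      rw [h7]
      refine Finset.even_sum _ (fun c hc => ?_)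
      have := hno c hc
      rw [Finset.filter_filter]
      exact Nat.not_odd_iff_even.mp this
    exact (Nat.not_odd_iff_even.mpr h9) hi
  have hcol' : ∀ i, ∃ c, Odd (a i) → c ∈ range ((∑ i, a i) - m + 1) ∧
      Odd ((univ.filter (fun v : (Σ i : Fin p, Fin (a i)) => v.1 = i ∧ cv v = c)).card) := by
    intro i
    by_cases hi : Odd (a i)
    · obtain ⟨c, hc, hc'⟩ := hcol i hi
      exact ⟨c, fun _ => ⟨hc, hc'⟩⟩
    · exact ⟨0, fun h => absurd h hi⟩
  choose g hg using hcol'
  -- the colour class is inside the part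
  have hin : ∀ i, Odd (a i) → ∀ v : (Σ i : Fin p, Fin (a i)), cv v = g i → v.1 = i := by
    intro i hi v hv
    obtain ⟨_, ho⟩ := hg i hi
    have hpos : 0 < ((univ.filter (fun v : (Σ i : Fin p, Fin (a i)) =>
        v.1 = i ∧ cv v = g i)).card) := by
      rcases ho with ⟨t, ht⟩; omega
    obtain ⟨w, hw⟩ := Finset.card_pos.mp hpos
    rw [mem_filter] at hw
    by_contra hne
    refine h4 v w ?_ (hv.trans hw.2.2.symm)
    intro h
    exact hne (h.trans hw.2.1)
  have hfil : ∀ i, Odd (a i) → (univ.filter (fun v : (Σ i : Fin p, Fin (a i)) => cv v = g i)) =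
      (univ.filter (fun v : (Σ i : Fin p, Fin (a i)) => v.1 = i ∧ cv v = g i)) := by
    intro i hi
    ext v
    simp only [mem_filter, mem_univ, true_and]
    exact ⟨fun h => ⟨hin i hi v h, h⟩, fun h => h.2⟩
  have hinj : Set.InjOn g (↑(univ.filter (fun i => Odd (a i))) : Set (Fin p)) := by
    intro i hi j hj hij
    have hi' : Odd (a i) := by simpa using hi
    have hj' : Odd (a j) := by simpa using hj
    obtain ⟨_, ho⟩ := hg i hi'
    have hpos : 0 < ((univ.filter (fun v : (Σ i : Fin p, Fin (a i)) =>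
        v.1 = i ∧ cv v = g i)).card) := by
      rcases ho with ⟨t, ht⟩; omega
    obtain ⟨w, hw⟩ := Finset.card_pos.mp hpos
    rw [mem_filter] at hw
    rw [← hw.2.1]
    exact hin j hj' w (hw.2.2.trans hij)
  -- slack at least one for these colours
  have hcard : Fintype.card (Σ i : Fin p, Fin (a i)) = ∑ i, a i := by
    rw [Fintype.card_sigma]; simp
  have hone : ∀ i ∈ (univ.filter (fun i => Odd (a i))), 1 ≤ ((∑ i, a i) -
      (((univ.filter (fun v : (Σ i : Fin p, Fin (a i)) => cv v = g i)).card) +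
        ((univ.filter (fun x : (Σ i : Fin p, Fin (a i)) × (Σ i : Fin p, Fin (a i)) =>
          x.1.1 ≠ x.2.1 ∧ ce x.1 x.2 = g i)).card))) := by
    intro i hi
    have hi' : Odd (a i) := by simpa using hi
    obtain ⟨_, ho⟩ := hg i hi'
    have hev := even_pairs (fun u : (Σ i : Fin p, Fin (a i)) => u.1) ce h3 (g i)
    have hle := colour_le (fun u : (Σ i : Fin p, Fin (a i)) => u.1) cv ce h5 h6 (g i)
    rw [hcard] at hle
    rw [hfil i hi'] at hle ⊢
    obtain ⟨x, hx⟩ := heven
    obtain ⟨y, hy⟩ := ho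
    obtain ⟨z, hz⟩ := hev
    omega
  have hmaps : ∀ i ∈ (univ.filter (fun i => Odd (a i))), g i ∈ range ((∑ i, a i) - m + 1) := by
    intro i hi
    have hi' : Odd (a i) := by simpa using hi
    exact (hg i hi').1
  have hfinal : (Finset.univ.filter (fun i => Odd (a i))).card ≤
      ∑ c ∈ range ((∑ i, a i) - m + 1), ((∑ i, a i) -
      (((univ.filter (fun v : (Σ i : Fin p, Fin (a i)) => cv v = c)).card) +
        ((univ.filter (fun x : (Σ i : Fin p, Fin (a i)) × (Σ i : Fin p, Fin (a i)) =>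
          x.1.1 ≠ x.2.1 ∧ ce x.1 x.2 = c)).card))) := by
    calc (Finset.univ.filter (fun i => Odd (a i))).card
        = ∑ i ∈ (univ.filter (fun i => Odd (a i))), 1 := by simp
      _ ≤ ∑ i ∈ (univ.filter (fun i => Odd (a i))), ((∑ i, a i) -
        (((univ.filter (fun v : (Σ i : Fin p, Fin (a i)) => cv v = g i)).card) +
        ((univ.filter (fun x : (Σ i : Fin p, Fin (a i)) × (Σ i : Fin p, Fin (a i)) =>
          x.1.1 ≠ x.2.1 ∧ ce x.1 x.2 = g i)).card))) := Finset.sum_le_sum hone
      _ = ∑ c ∈ (univ.filter (fun i => Odd (a i))).image g, ((∑ i, a i) -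
        (((univ.filter (fun v : (Σ i : Fin p, Fin (a i)) => cv v = c)).card) +
        ((univ.filter (fun x : (Σ i : Fin p, Fin (a i)) × (Σ i : Fin p, Fin (a i)) =>
          x.1.1 ≠ x.2.1 ∧ ce x.1 x.2 = c)).card))) := by
          rw [Finset.sum_image hinj]
      _ ≤ _ := by
          refine Finset.sum_le_sum_of_subset ?_
          intro c hc
          obtain ⟨i, hi, rfl⟩ := Finset.mem_image.mp hc
          exact hmaps i hi
  rw [hs] at hfinal
  omega

/-- lower bound for `K_{m,m}` -/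
theorem lower_bip (a : Fin 2 → ℕ) (ha : ∀ i, 0 < a i) (m : ℕ) (hex : ∃ i, a i = m)
    (hm : ∀ i, m ≤ a i) (heq : ∀ i j, a i = a j) :
    ¬ TotCol 2 a ((∑ i, a i) - m + 1) := by
  classical
  intro hT
  obtain ⟨cv, ce, h1, h2, h3, h4, h5, h6⟩ := TC_of_TotCol hT
  have hs := slack_sum a m hex hm cv ce h1 h2 h5 h6
  have ham : ∀ i, a i = m := by
    intro i
    obtain ⟨j, hj⟩ := hex
    rw [heq i j, hj]
  have hD : ∑ i, a i * (a i - m) = 0 := by
    apply Finset.sum_eq_zero
    intro i _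
    rw [ham i]; simp
  rw [hD] at hs
  have hcard : Fintype.card (Σ i : Fin 2, Fin (a i)) = ∑ i, a i := by
    rw [Fintype.card_sigma]; simp
  -- the vertex v0
  set v0 : (Σ i : Fin 2, Fin (a i)) := ⟨0, ⟨0, ha 0⟩⟩ with hv0
  set c := cv v0 with hc
  have hc0 := (Finset.sum_eq_zero_iff_of_nonneg (fun _ _ => Nat.zero_le _)).mp hs c
    (by simpa using h1 v0)
  have hle := colour_le (fun u : (Σ i : Fin 2, Fin (a i)) => u.1) cv ce h5 h6 c
  rw [hcard] at hle
  -- equality at every vertex
  have hall : ∀ v : (Σ i : Fin 2, Fin (a i)), (if cv v = c then 1 else 0) +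
      ((univ.filter (fun u : (Σ i : Fin 2, Fin (a i)) => v.1 ≠ u.1 ∧ ce v u = c)).card) = 1 := by
    have hA : ((univ.filter (fun x : (Σ i : Fin 2, Fin (a i)) × (Σ i : Fin 2, Fin (a i)) =>
        x.1.1 ≠ x.2.1 ∧ ce x.1 x.2 = c)).card) =
      ∑ v : (Σ i : Fin 2, Fin (a i)),
        ((univ.filter (fun u : (Σ i : Fin 2, Fin (a i)) => v.1 ≠ u.1 ∧ ce v u = c)).card) := by
      simp only [Finset.card_filter]
      rw [← Finset.univ_product_univ, Finset.sum_product]
    have hB : ((univ.filter (fun v : (Σ i : Fin 2, Fin (a i)) => cv v = c)).card) =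
      ∑ v : (Σ i : Fin 2, Fin (a i)), (if cv v = c then 1 else 0) := Finset.card_filter _ _
    have hsum : ∑ v : (Σ i : Fin 2, Fin (a i)), ((if cv v = c then 1 else 0) +
      ((univ.filter (fun u : (Σ i : Fin 2, Fin (a i)) => v.1 ≠ u.1 ∧ ce v u = c)).card)) =
      ∑ _v : (Σ i : Fin 2, Fin (a i)), 1 := by
      rw [Finset.sum_add_distrib, ← hA, ← hB]
      simp only [Finset.sum_const, Finset.card_univ, smul_eq_mul, mul_one]
      rw [hcard]
      omega
    have hlel : ∀ v ∈ (univ : Finset (Σ i : Fin 2, Fin (a i))), ((if cv v = c then 1 else 0) +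
      ((univ.filter (fun u : (Σ i : Fin 2, Fin (a i)) => v.1 ≠ u.1 ∧ ce v u = c)).card)) ≤ 1 :=
      fun v _ => local_le (fun u : (Σ i : Fin 2, Fin (a i)) => u.1) cv ce h5 h6 c v
    have := (Finset.sum_eq_sum_iff_of_le hlel).mp hsum
    intro v
    exact this v (mem_univ v)
  -- a partner for each vertex of part 1
  have hpart : ∀ y : Fin (a 1), ∃ x : Fin (a 0), ce ⟨1, y⟩ ⟨0, x⟩ = c := by
    intro y
    have h7 := hall ⟨1, y⟩
    have h8 : cv ⟨1, y⟩ ≠ c := by
      intro h
      exact h4 ⟨1, y⟩ v0 (by simp [hv0]) h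
    rw [if_neg h8, zero_add] at h7
    obtain ⟨u, hu⟩ := Finset.card_pos.mp (by omega :
      0 < ((univ.filter (fun u : (Σ i : Fin 2, Fin (a i)) =>
        (⟨1, y⟩ : (Σ i : Fin 2, Fin (a i))).1 ≠ u.1 ∧ ce ⟨1, y⟩ u = c)).card))
    rw [mem_filter] at hu
    obtain ⟨i, x⟩ := u
    have hi : i = 0 := by
      have := hu.2.1
      simp only at this
      omega
    subst hi
    exact ⟨x, hu.2.2⟩
  choose f hf using hpart
  have hfinj : Function.Injective f := by
    intro y y' hyy
    by_contra hne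
    have h7 := hf y
    have h8 := hf y'
    rw [← hyy] at h8
    rw [h3] at h7 h8
    refine h5 ⟨0, f y⟩ ⟨1, y⟩ ⟨1, y'⟩ (by simp) (by simp) ?_ (h7.trans h8.symm)
    intro h
    apply hne
    simpa using h
  have hcard01 : Fintype.card (Fin (a 1)) = Fintype.card (Fin (a 0)) := by
    simp [heq 1 0]
  have hbij := (Fintype.bijective_iff_injective_and_card f).mpr ⟨hfinj, hcard01⟩
  obtain ⟨y, hy⟩ := hbij.2 ⟨0, ha 0⟩
  have h9 := hf y
  rw [hy, h3] at h9
  exact h6 v0 ⟨1, y⟩ (by simp [hv0]) h9.symm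

/-! ### `Δ + 2` from the odd order case -/

/-- the odd order hypothesis -/
def OddCase : Prop := ∀ (p : ℕ) (a : Fin p → ℕ), (∀ i, 0 < a i) → ∀ m : ℕ, (∃ i, a i = m) →
  (∀ i, m ≤ a i) → Odd (∑ i, a i) → TotCol p a ((∑ i, a i) - m + 1)

/-- the even order hypothesis -/
def EvenCase : Prop := ∀ (p : ℕ) (a : Fin p → ℕ), (∀ i, 0 < a i) → ∀ m : ℕ, (∃ i, a i = m) →
  (∀ i, m ≤ a i) → Even (∑ i, a i) → ¬ (p = 2 ∧ ∀ i j, a i = a j) →
  (Finset.univ.filter (fun i => Odd (a i))).card ≤ (∑ i, (a i * (a i - m))) →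
  TotCol p a ((∑ i, a i) - m + 1)

theorem upper2 (Hodd : OddCase) (p : ℕ) (a : Fin p → ℕ) (ha : ∀ i, 0 < a i) (m : ℕ)
    (hex : ∃ i, a i = m) (hm : ∀ i, m ≤ a i) : TotCol p a ((∑ i, a i) - m + 2) := by
  classical
  rcases Nat.even_or_odd (∑ i, a i) with he | ho
  · obtain ⟨i0, hi0⟩ := hex
    set b : Fin p → ℕ := Function.update a i0 (a i0 + 1) with hb
    have hab : ∀ i, a i ≤ b i := by
      intro i
      by_cases h : i = i0
      · subst h; simp [hb]
      · simp [hb, Function.update_of_ne h]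
    have hsum : ∑ i, b i = (∑ i, a i) + 1 := by
      rw [hb, Finset.sum_update_of_mem (Finset.mem_univ i0)]
      rw [← Finset.add_sum_erase univ a (Finset.mem_univ i0), Finset.sdiff_singleton_eq_erase]
      ring
    have hbpos : ∀ i, 0 < b i := fun i => lt_of_lt_of_le (ha i) (hab i)
    obtain ⟨j, _, hj⟩ := Finset.exists_min_image (univ : Finset (Fin p)) b ⟨i0, mem_univ _⟩
    have hbm : ∀ i, b j ≤ b i := fun i => hj i (mem_univ i)
    have hodd : Odd (∑ i, b i) := by
      rw [hsum]; exact he.add_one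
    have hT := Hodd p b hbpos (b j) ⟨j, rfl⟩ hbm hodd
    have hT' := TotCol_mono_a hab hT
    refine TotCol_mono_k ?_ hT'
    rw [hsum]
    have h1 : m ≤ b j := le_trans (hm j) (hab j)
    have h2 : m ≤ ∑ i, a i := by
      rw [← hi0]
      exact Finset.single_le_sum (fun _ _ => Nat.zero_le _) (Finset.mem_univ i0)
    omega
  · exact TotCol_mono_k (by omega) (Hodd p a ha m hex hm ho)

/-- final assembly: the frozen statement from the two upper bound cases -/
theorem main_of (Hodd : OddCase) (Heven : EvenCase) :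
    ∀ (p : ℕ) (a : Fin p → ℕ), (∀ i, 0 < a i) → ∀ m : ℕ, (∃ i, a i = m) → (∀ i, m ≤ a i) →
      (((¬ ∃ cv : (Σ i : Fin p, Fin (a i)) → Fin ((∑ i, a i) - m + 1),
            ∃ ce : (SimpleGraph.completeMultipartiteGraph (fun i : Fin p => Fin (a i))).edgeSet →
              Fin ((∑ i, a i) - m + 1),
            (∀ u v : (Σ i : Fin p, Fin (a i)),
              (SimpleGraph.completeMultipartiteGraph (fun i : Fin p => Fin (a i))).Adj u v →
                cv u ≠ cv v) ∧
            (∀ e f : (SimpleGraph.completeMultipartiteGraph (fun i : Fin p => Fin (a i))).edgeSet,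
              e ≠ f → ∀ v : (Σ i : Fin p, Fin (a i)), v ∈ e.1 → v ∈ f.1 → ce e ≠ ce f) ∧
            (∀ e : (SimpleGraph.completeMultipartiteGraph (fun i : Fin p => Fin (a i))).edgeSet,
              ∀ v : (Σ i : Fin p, Fin (a i)), v ∈ e.1 → cv v ≠ ce e)) ∧
        (∃ cv : (Σ i : Fin p, Fin (a i)) → Fin ((∑ i, a i) - m + 2),
            ∃ ce : (SimpleGraph.completeMultipartiteGraph (fun i : Fin p => Fin (a i))).edgeSet →
              Fin ((∑ i, a i) - m + 2),
            (∀ u v : (Σ i : Fin p, Fin (a i)),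
              (SimpleGraph.completeMultipartiteGraph (fun i : Fin p => Fin (a i))).Adj u v →
                cv u ≠ cv v) ∧
            (∀ e f : (SimpleGraph.completeMultipartiteGraph (fun i : Fin p => Fin (a i))).edgeSet,
              e ≠ f → ∀ v : (Σ i : Fin p, Fin (a i)), v ∈ e.1 → v ∈ f.1 → ce e ≠ ce f) ∧
            (∀ e : (SimpleGraph.completeMultipartiteGraph (fun i : Fin p => Fin (a i))).edgeSet,
              ∀ v : (Σ i : Fin p, Fin (a i)), v ∈ e.1 → cv v ≠ ce e)))
      ↔
      ((p = 2 ∧ ∀ i j, a i = a j) ∨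
        (Even (∑ i, a i) ∧
          (∑ i, (a i * (a i - m))) < (Finset.univ.filter (fun i => Odd (a i))).card))) := by
  intro p a ha m hex hm
  change ((¬ TotCol p a ((∑ i, a i) - m + 1)) ∧ TotCol p a ((∑ i, a i) - m + 2)) ↔ _
  constructor
  · rintro ⟨hno, _⟩
    by_contra hcon
    push Not at hcon
    obtain ⟨hc1, hc2⟩ := hcon
    rcases Nat.even_or_odd (∑ i, a i) with he | ho
    · refine hno (Heven p a ha m hex hm he ?_ (hc2 he))
      rintro ⟨hp2, hall⟩
      obtain ⟨i, j, hij⟩ := hc1 hp2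
      exact hij (hall i j)
    · exact hno (Hodd p a ha m hex hm ho)
  · intro h
    refine ⟨?_, upper2 Hodd p a ha m hex hm⟩
    rcases h with ⟨hp, heq⟩ | ⟨he, hD⟩
    · subst hp
      exact lower_bip a ha m hex hm heq
    · exact lower_odd a m hex hm he hD

end HRfin
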