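import Pool.Agent.H301R2.HR.Cases
import Pool.Agent.H931R2.HR.Final

set_option autoImplicit false

/-!
Hoffman-Rodger conjecture: the two upper bound cases of `HRfin.main_of` from the case theorems.
-/

namespace HRfin

open Finset Pool.Agent.H301R2.HR

theorem TotCol_of_TCm {p : ℕ} {a : Fin p → ℕ} {k : ℕ} (h : TCm a (Fin k)) : TotCol p a k := by
  obtain ⟨cv, ce, h1, h2, h3, h4⟩ := h
  apply TotCol_of_TC'
  refine ⟨fun u => (cv u : ℕ), fun u v => (ce u v : ℕ), fun u => (cv u).2, fun u v _ => (ce u v).2,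
    fun u v => congrArg Fin.val (h2 u v), fun u v huv hc => h1 u v huv (Fin.ext hc),
    fun u v w huv huw hvw hc => h3 u v w huv huw hvw (Fin.ext hc),
    fun u v huv hc => h4 u v huv (Fin.ext hc)⟩

theorem card_odd {p : ℕ} (a : Fin p → ℕ) :
    (Finset.univ.filter (fun i => Odd (a i))).card = ∑ i, a i % 2 := by
  rw [Finset.card_filter]
  refine Finset.sum_congr rfl (fun i _ => ?_)
  split_ifs with h
  · exact (Nat.odd_iff.mp h).symm
  · rw [Nat.not_odd_iff_even, Nat.even_iff] at h
    exact h.symm

theorem oddCase_of (h0 : S_C0) (h1 : S_C1) : OddCase := by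
  intro p a ha m hex hm hodd
  apply TotCol_of_TCm
  have hmpos : 1 ≤ m := by
    obtain ⟨i, hi⟩ := hex
    rw [← hi]; exact ha i
  by_cases hp : p ≤ 1
  · exact h0 a _ (by omega) (by simpa using hp)
  · exact h1 a m hmpos hex hm (by simp; omega) (Or.inl hodd)

theorem evenCase_of (h0 : S_C0) (h1 : S_C1) (h2 : S_C2) (h3 : S_C3) (h4 : S_C4) : EvenCase := by
  intro p a ha m hex hm heven hne hD
  apply TotCol_of_TCm
  have hmpos : 1 ≤ m := by
    obtain ⟨i, hi⟩ := hex
    rw [← hi]; exact ha i
  have hmn : m ≤ ∑ i, a i := by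
    obtain ⟨i, hi⟩ := hex
    rw [← hi]
    exact Finset.single_le_sum (fun _ _ => Nat.zero_le _) (Finset.mem_univ i)
  by_cases hp : p ≤ 1
  · exact h0 a _ (by omega) (by simpa using hp)
  by_cases hlarge : (∑ i, a i) - m ≤ ∑ i, a i * (a i - m)
  · exact h1 a m hmpos hex hm (by simp; omega) (Or.inr hlarge)
  push Not at hlarge
  rw [card_odd] at hD
  have hp3 : 3 ≤ p := by
    by_contra hcon
    have hp2 : p = 2 := by omega
    subst hp2
    apply hne
    refine ⟨rfl, ?_⟩
    rw [Fin.sum_univ_two, Fin.sum_univ_two] at hlarge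
    have hm0 := hm 0
    have hm1 := hm 1
    obtain ⟨i, hi⟩ := hex
    have key : a 0 = m ∧ a 1 = m := by
      obtain ⟨x, hx⟩ := Nat.exists_eq_add_of_le hm0
      obtain ⟨y, hy⟩ := Nat.exists_eq_add_of_le hm1
      rw [hx, hy] at hlarge ⊢
      simp only [Nat.add_sub_cancel_left] at hlarge
      have hxy : x = 0 ∨ y = 0 := by
        fin_cases i
        · left; simp only [Fin.zero_eta] at hi; omega
        · right; simp only [Fin.mk_one] at hi; omega
      rcases hxy with rfl | rfl
      · rcases Nat.eq_zero_or_pos y with rfl | hy0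
        · simp
        · exfalso
          have : (m + y) * 1 ≤ (m + y) * y := Nat.mul_le_mul_left _ hy0
          omega
      · rcases Nat.eq_zero_or_pos x with rfl | hx0
        · simp
        · exfalso
          have : (m + x) * 1 ≤ (m + x) * x := Nat.mul_le_mul_left _ hx0
          omega
    intro i j
    fin_cases i <;> fin_cases j <;> simp [key.1, key.2]
  rcases Nat.lt_or_ge m 3 with hm3 | hm3
  · interval_cases m
    · have h5 := h4 a hex hm heven hD hlarge
      have h6 : (∑ i, a i) - 1 + 1 = ∑ i, a i := by omega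
      rw [h6]
      exact h5
    · have h5 := h3 a hex hm (by simpa using hp3) heven hlarge
      have h6 : (∑ i, a i) - 2 + 1 = (∑ i, a i) - 1 := by omega
      rw [h6]
      exact h5
  · exact h2 a m hm3 hex hm (by simpa using hp3) heven hD hlarge

end HRfin
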