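import Pool.Agent.H931R2.HR.Final

set_option autoImplicit false

/-!
Hoffman-Rodger conjecture: the conclusion in terms of the total chromatic number, the maximum
degree and the deficiency.
-/

namespace HRfin

open Finset

/-- `G` has a total colouring with `k` colours: adjacent vertices get different colours, edges
sharing an endpoint get different colours, no edge gets the colour of one of its endpoints. -/
def TotallyColourable {V : Type} (G : SimpleGraph V) (k : ℕ) : Prop :=
  ∃ cv : V → Fin k, ∃ ce : G.edgeSet → Fin k,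
    (∀ u v : V, G.Adj u v → cv u ≠ cv v) ∧
    (∀ e f : G.edgeSet, e ≠ f → ∀ v : V, v ∈ e.1 → v ∈ f.1 → ce e ≠ ce f) ∧
    (∀ e : G.edgeSet, ∀ v : V, v ∈ e.1 → cv v ≠ ce e)

/-- The total chromatic number of `G`. -/
noncomputable def totalChromaticNumber {V : Type} (G : SimpleGraph V) : ℕ :=
  sInf {k | TotallyColourable G k}

/-- The deficiency of `G`. -/
def deficiency {V : Type} [Fintype V] (G : SimpleGraph V) [DecidableRel G.Adj] : ℕ :=
  ∑ v, (G.maxDegree - G.degree v)

section

variable {p : ℕ} (a : Fin p → ℕ)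

theorem degree_eq (v : Σ i : Fin p, Fin (a i)) :
    (SimpleGraph.completeMultipartiteGraph (fun i : Fin p => Fin (a i))).degree v =
      (∑ i, a i) - a v.1 := by
  have h1 : (SimpleGraph.completeMultipartiteGraph (fun i : Fin p => Fin (a i))).degree v =
      (univ.filter (fun u : (Σ i : Fin p, Fin (a i)) => v.1 ≠ u.1)).card := by
    rw [← SimpleGraph.card_neighborFinset_eq_degree, SimpleGraph.neighborFinset_eq_filter]
    rfl
  have h2 : (univ.filter (fun u : (Σ i : Fin p, Fin (a i)) => v.1 = u.1)).card = a v.1 := by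
    simp only [Finset.card_filter]
    rw [Fintype.sum_sigma]
    have h3 : ∀ x : Fin p, (∑ _y : Fin (a x), if v.1 = x then 1 else 0) =
        if v.1 = x then a x else 0 := by
      intro x
      split_ifs <;> simp
    calc _ = ∑ x : Fin p, (∑ _y : Fin (a x), if v.1 = x then 1 else 0) := rfl
      _ = ∑ x : Fin p, (if v.1 = x then a x else 0) := Finset.sum_congr rfl (fun x _ => h3 x)
      _ = a v.1 := by simp
  have h4 := Finset.card_filter_add_card_filter_not
    (s := (univ : Finset (Σ i : Fin p, Fin (a i)))) (fun u => v.1 = u.1)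
  rw [Finset.card_univ, Fintype.card_sigma] at h4
  simp only [Fintype.card_fin] at h4
  rw [h1]
  simp only [ne_eq]
  omega

theorem maxDeg_eq (ha : ∀ i, 0 < a i) (m : ℕ) (hex : ∃ i, a i = m) (hm : ∀ i, m ≤ a i) :
    (SimpleGraph.completeMultipartiteGraph (fun i : Fin p => Fin (a i))).maxDegree =
      (∑ i, a i) - m := by
  apply le_antisymm
  · apply SimpleGraph.maxDegree_le_of_forall_degree_le
    intro v
    rw [degree_eq]
    have := hm v.1
    omega
  · obtain ⟨i, hi⟩ := hex
    have h := (SimpleGraph.completeMultipartiteGraph (fun i : Fin p => Fin (a i))).degree_le_maxDegree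
      ⟨i, ⟨0, ha i⟩⟩
    rw [degree_eq] at h
    simp only [hi] at h
    exact h

theorem deficiency_eq (ha : ∀ i, 0 < a i) (m : ℕ) (hex : ∃ i, a i = m) (hm : ∀ i, m ≤ a i) :
    deficiency (SimpleGraph.completeMultipartiteGraph (fun i : Fin p => Fin (a i))) =
      ∑ i, a i * (a i - m) := by
  unfold deficiency
  rw [maxDeg_eq a ha m hex hm, Fintype.sum_sigma]
  refine Finset.sum_congr rfl (fun i _ => ?_)
  have h2 : ∀ x : Fin (a i), (∑ i, a i) - m -
      (SimpleGraph.completeMultipartiteGraph (fun i : Fin p => Fin (a i))).degree ⟨i, x⟩ =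
      a i - m := by
    intro x
    rw [degree_eq]
    have h3 : a i ≤ ∑ i, a i := Finset.single_le_sum (fun _ _ => Nat.zero_le _) (Finset.mem_univ i)
    have h4 := hm i
    simp only
    omega
  calc _ = ∑ _x : Fin (a i), (a i - m) := Finset.sum_congr rfl (fun x _ => h2 x)
    _ = a i * (a i - m) := by simp

/-- the trivial lower bound -/
theorem trivial_lower {k : ℕ} (i : Fin p) (hi : 0 < a i) (h : TotCol p a k) :
    (∑ j, a j) - a i + 1 ≤ k := by
  classical
  obtain ⟨cv, ce, h1, h2, h3, h4, h5, h6⟩ := TC_of_TotCol h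
  set v : (Σ i : Fin p, Fin (a i)) := ⟨i, ⟨0, hi⟩⟩ with hv
  have hk : 0 < k := lt_of_le_of_lt (Nat.zero_le _) (h1 v)
  let g : Option {u : (Σ i : Fin p, Fin (a i)) // v.1 ≠ u.1} → Fin k := fun o =>
    match o with
    | none => ⟨cv v, h1 v⟩
    | some u => ⟨ce v u.1, h2 v u.1 u.2⟩
  have hg : Function.Injective g := by
    intro x y hxy
    rcases x with _ | x <;> rcases y with _ | y
    · rfl
    · exact absurd (congrArg Fin.val hxy) (h6 v y.1 y.2)
    · exact absurd (congrArg Fin.val hxy).symm (h6 v x.1 x.2)
    · by_contra hne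
      refine h5 v x.1 y.1 x.2 y.2 ?_ (congrArg Fin.val hxy)
      intro h
      apply hne
      rw [Subtype.ext h]
  have hc := Fintype.card_le_of_injective g hg
  rw [Fintype.card_option, Fintype.card_fin] at hc
  have hd := degree_eq a v
  have hd2 : (SimpleGraph.completeMultipartiteGraph (fun i : Fin p => Fin (a i))).degree v =
      Fintype.card {u : (Σ i : Fin p, Fin (a i)) // v.1 ≠ u.1} := by
    rw [← SimpleGraph.card_neighborFinset_eq_degree, SimpleGraph.neighborFinset_eq_filter,
      Fintype.card_subtype]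
    rfl
  rw [hd] at hd2
  simp only [hv] at hd2 hc
  omega

end

/-- the conclusion -/
theorem conclusion (Hodd : OddCase) (Heven : EvenCase) (p : ℕ) (a : Fin p → ℕ) (hp : 0 < p)
    (ha : ∀ i, 0 < a i) :
    (totalChromaticNumber (SimpleGraph.completeMultipartiteGraph (fun i : Fin p => Fin (a i))) =
      (SimpleGraph.completeMultipartiteGraph (fun i : Fin p => Fin (a i))).maxDegree + 1 ∨
     totalChromaticNumber (SimpleGraph.completeMultipartiteGraph (fun i : Fin p => Fin (a i))) =
      (SimpleGraph.completeMultipartiteGraph (fun i : Fin p => Fin (a i))).maxDegree + 2) ∧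
    (totalChromaticNumber (SimpleGraph.completeMultipartiteGraph (fun i : Fin p => Fin (a i))) =
      (SimpleGraph.completeMultipartiteGraph (fun i : Fin p => Fin (a i))).maxDegree + 2 ↔
      ((p = 2 ∧
        deficiency (SimpleGraph.completeMultipartiteGraph (fun i : Fin p => Fin (a i))) = 0) ∨
      (Even (Fintype.card (Σ i : Fin p, Fin (a i))) ∧
        deficiency (SimpleGraph.completeMultipartiteGraph (fun i : Fin p => Fin (a i))) <
          (univ.filter (fun i => Odd (a i))).card))) := by
  classical
  obtain ⟨i0, _, hi0⟩ := Finset.exists_min_image (univ : Finset (Fin p)) a ⟨⟨0, hp⟩, mem_univ _⟩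
  set m := a i0 with hm0
  have hex : ∃ i, a i = m := ⟨i0, rfl⟩
  have hm : ∀ i, m ≤ a i := fun i => hi0 i (mem_univ i)
  have hmain := main_of Hodd Heven p a ha m hex hm
  have hup := upper2 Hodd p a ha m hex hm
  have hlow : ∀ k, TotCol p a k → (∑ i, a i) - m + 1 ≤ k := fun k hk =>
    trivial_lower a i0 (ha i0) hk
  rw [maxDeg_eq a ha m hex hm, deficiency_eq a ha m hex hm]
  have hset : {k | TotallyColourable
      (SimpleGraph.completeMultipartiteGraph (fun i : Fin p => Fin (a i))) k} =
      {k | TotCol p a k} := rfl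
  have hcard : Fintype.card (Σ i : Fin p, Fin (a i)) = ∑ i, a i := by
    rw [Fintype.card_sigma]; simp
  unfold totalChromaticNumber
  rw [hset, hcard]
  have hne : {k | TotCol p a k}.Nonempty := ⟨_, hup⟩
  have hmem : TotCol p a (sInf {k | TotCol p a k}) := Nat.sInf_mem hne
  have hle : sInf {k | TotCol p a k} ≤ (∑ i, a i) - m + 2 := Nat.sInf_le hup
  have hge := hlow _ hmem
  constructor
  · omega
  · have hreg : (p = 2 ∧ ∀ i j, a i = a j) ↔ (p = 2 ∧ ∑ i, a i * (a i - m) = 0) := by
      constructor
      · rintro ⟨h2, hall⟩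
        refine ⟨h2, Finset.sum_eq_zero (fun i _ => ?_)⟩
        rw [hall i i0, ← hm0]; simp
      · rintro ⟨h2, hz⟩
        refine ⟨h2, ?_⟩
        have h3 : ∀ i, a i = m := by
          intro i
          have h4 := (Finset.sum_eq_zero_iff_of_nonneg (fun _ _ => Nat.zero_le _)).mp hz i
            (mem_univ i)
          rcases Nat.mul_eq_zero.mp h4 with h5 | h5
          · have := ha i; omega
          · have := hm i; omega
        intro i j
        rw [h3 i, h3 j]
    rw [← hreg]
    change ((¬ TotCol p a ((∑ i, a i) - m + 1)) ∧ TotCol p a ((∑ i, a i) - m + 2)) ↔ _ at hmain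
    rw [← hmain]
    constructor
    · intro h
      refine ⟨?_, hup⟩
      intro hT
      have : sInf {k | TotCol p a k} ≤ (∑ i, a i) - m + 1 := Nat.sInf_le hT
      omega
    · rintro ⟨hno, _⟩
      rcases Nat.lt_or_ge (sInf {k | TotCol p a k}) ((∑ i, a i) - m + 2) with hlt | hge2
      · exfalso
        apply hno
        have : sInf {k | TotCol p a k} = (∑ i, a i) - m + 1 := by omega
        rw [← this]; exact hmem
      · omega

end HRfin
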