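import Pool.Agent.H931R2.HR.Asm
import Pool.Agent.H931R2.HR.Concl
import Pool.Agent.H301R2.HR.T_2233
import Pool.Agent.H301R2.HR.T_C1a
import Pool.Agent.H301R2.HR.T_PAIRS
import Pool.Agent.H301R2.HR.T_SP2e
import Pool.Agent.H301R2.HR.T_A1
import Pool.Agent.H301R2.HR.T_A3
import Pool.Agent.H301R2.HR.T_A4
import Pool.Agent.H301R2.HR.T_A5
import Pool.Agent.H301R2.HR.T_ASM
import Pool.Agent.H301R2.HR.T_C1
import Pool.Agent.H301R2.HR.T_C1b
import Pool.Agent.H301R2.HR.T_C2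
import Pool.Agent.H301R2.HR.T_C3
import Pool.Agent.H301R2.HR.T_C3a
import Pool.Agent.H301R2.HR.T_C4
import Pool.Agent.H301R2.HR.T_C4G
import Pool.Agent.H301R2.HR.T_C4I
import Pool.Agent.H301R2.HR.T_C4a
import Pool.Agent.H301R2.HR.T_CAPIe
import Pool.Agent.H301R2.HR.T_CAPIo
import Pool.Agent.H301R2.HR.T_CARD
import Pool.Agent.H301R2.HR.T_CLI
import Pool.Agent.H301R2.HR.T_DE
import Pool.Agent.H301R2.HR.T_DET
import Pool.Agent.H301R2.HR.T_DT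
import Pool.Agent.H301R2.HR.T_DW
import Pool.Agent.H301R2.HR.T_ECT
import Pool.Agent.H301R2.HR.T_EMB
import Pool.Agent.H301R2.HR.T_EPS
import Pool.Agent.H301R2.HR.T_H1
import Pool.Agent.H301R2.HR.T_HX
import Pool.Agent.H301R2.HR.T_MATE
import Pool.Agent.H301R2.HR.T_ORI
import Pool.Agent.H301R2.HR.T_OT
import Pool.Agent.H301R2.HR.T_PHI
import Pool.Agent.H301R2.HR.T_PIN
import Pool.Agent.H301R2.HR.T_SEL
import Pool.Agent.H301R2.HR.T_SMALL
import Pool.Agent.H301R2.HR.T_SP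
import Pool.Agent.H301R2.HR.T_SP2
import Pool.Agent.H301R2.HR.T_SP2o
import Pool.Agent.H301R2.HR.T_SPLIT
import Pool.Agent.H301R2.HR.T_SPee
import Pool.Agent.H301R2.HR.T_SPeo
import Pool.Agent.H301R2.HR.T_SPoe
import Pool.Agent.H301R2.HR.T_SPoo
import Pool.Agent.H301R2.HR.T_YCH

set_option autoImplicit false

/-!
Hoffman-Rodger conjecture: all the pieces together.
-/

namespace HRfin

open Finset Pool.Agent.H301R2.HR

theorem cases : OddCase ∧ EvenCase := by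
  have hDW : S_DW := T_DW
  have hSEL : S_SEL := T_SEL hDW
  have hORI : S_ORI := T_ORI hDW
  have hOT : S_OT := T_OT hDW hORI
  have hSPLIT : S_SPLIT := T_SPLIT hSEL
  have hDET : S_DET := T_DET hSPLIT
  have hDT : S_DT := T_DT hDET
  have hDE : S_DE := T_DE hDET
  have hECT : S_ECT := T_ECT hOT (T_PHI T_PIN)
  have hH1 : S_H1 := T_H1 T_HX
  have hC1a : S_C1a := T_C1a hECT hDE
  have hPAIRS : S_PAIRS := T_PAIRS
  have hSP2e : S_SP2e := T_SP2e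
  have hC1b : S_C1b := T_C1b hECT hDE hH1
  have hC1 : S_C1 := T_C1 hC1a hC1b T_CARD
  have hA3 : S_A3 := T_A3 T_A1
  have hA4 : S_A4 := T_A4 T_A1
  have hA5 : S_A5 := T_A5 T_A1
  have hCLI : S_CLI := T_CLI T_YCH
  have hSPoe : S_SPoe := T_SPoe hA3 hA4 hA5 hPAIRS
  have hSPoo : S_SPoo := T_SPoo hA3 hA4 hA5 hPAIRS T_MATE
  have hSPee : S_SPee := T_SPee hA3 hA4 hA5 hPAIRS hCLI
  have hSPeo : S_SPeo := T_SPeo hA3 hA4 hA5 hPAIRS T_MATE hCLI
  have hSP : S_SP := T_SP hSPoe hSPoo hSPee hSPeo T_SMALL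
  have hASM : S_ASM := T_ASM hOT hDT T_EMBG
  have hC2 : S_C2 := T_C2 hSP T_SMALL T_EPS T_CAPIo T_CAPIe hASM T_CARD
  have hSP2 : S_SP2 := T_SP2 T_SP2o hSP2e
  have h2233 : S_2233 := T_2233 hASM T_CARD T_EQV
  have hC3a : S_C3a := T_C3a hSP2 h2233 T_EPS hASM T_CARD
  have hC3 : S_C3 := T_C3 hC3a T_REF T_CARD
  have hC4G : S_C4G := T_C4G T_C4I hOT hDT
  have hC4a : S_C4a := T_C4a hC4G T_EMBG T_CARD
  have hC4 : S_C4 := T_C4 hC4a T_REF
  exact ⟨oddCase_of T_C0 hC1, evenCase_of T_C0 hC1 hC2 hC3 hC4⟩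

end HRfin
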